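import Mathlib
import Pool.Agent.V1113.BoolProd

/-!
# The minimal Boolean `(m, 0)`-product need not be the smallest one
-/

set_option autoImplicit false
set_option linter.all false

namespace Pool.Agent.Results.MP_27bb78_al.NotSmallest

open scoped Cardinal
open Pool.Agent.V1113.BoolProd

/-- The maps `i t` from the algebras `A t` to `B` form a Boolean `(m, 0)`-product. -/
structure IsProduct (m : Cardinal.{0}) {T : Type} {A : T → Type} [∀ t, BooleanAlgebra (A t)]
    {B : Type} [BooleanAlgebra B] (i : ∀ t, BoundedLatticeHom (A t) B) : Prop where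
  alg : IsMAlg m B
  inj : ∀ t, Function.Injective (i t)
  hom : ∀ t, IsMHom m (i t)
  indep : ∀ (F : Finset T) (a : ∀ t, A t), (∀ t ∈ F, a t ≠ ⊥) → F.inf (fun t => i t (a t)) ≠ ⊥
  gen : Generates m (⋃ t, Set.range (i t))

/-- The meets `⋀_{t ∈ F} i_t(a_t)` with `F` finite are dense. -/
def IsMinimal {T : Type} {A : T → Type} [∀ t, BooleanAlgebra (A t)] {B : Type} [BooleanAlgebra B]
    (i : ∀ t, BoundedLatticeHom (A t) B) : Prop :=
  ∀ z : B, z ≠ ⊥ → ∃ (F : Finset T) (a : ∀ t, A t),
    F.inf (fun t => i t (a t)) ≠ ⊥ ∧ F.inf (fun t => i t (a t)) ≤ z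

/-- The family of two homomorphisms. -/
def two {A B : Type} [BooleanAlgebra A] [BooleanAlgebra B] (f g : BoundedLatticeHom A B) :
    ∀ _ : Bool, BoundedLatticeHom A B
  | false => f
  | true => g

section

variable {A B : Type} [BooleanAlgebra A] [BooleanAlgebra B]

theorem isProduct_two {m : Cardinal.{0}} {f g : BoundedLatticeHom A B} (h1 : IsMAlg m B)
    (hf : Function.Injective f) (hg : Function.Injective g) (hf' : IsMHom m f) (hg' : IsMHom m g)
    (hind : ∀ a b, a ≠ ⊥ → b ≠ ⊥ → f a ⊓ g b ≠ ⊥) (hA : (⊤ : A) ≠ ⊥)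
    (hgen : Generates m (Set.range f ∪ Set.range g)) :
    IsProduct m (A := fun _ : Bool => A) (two f g) where
  alg := h1
  inj t := by cases t <;> assumption
  hom t := by cases t <;> assumption
  indep F a ha h := by
    classical
    have h2 : ∀ t, (if t ∈ F then a t else ⊤) ≠ ⊥ := by
      intro t
      split_ifs with ht
      · exact ha t ht
      · exact hA
    apply hind _ _ (h2 false) (h2 true)
    rw [eq_bot_iff, ← h]
    refine Finset.le_inf fun t ht => ?_
    cases t
    · rw [if_pos ht]; exact inf_le_left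
    · rw [if_pos ht]; exact inf_le_right
  gen := by
    have : (⋃ t : Bool, Set.range (two f g t)) = Set.range f ∪ Set.range g := by
      ext x
      simp only [Set.mem_iUnion, Bool.exists_bool, Set.mem_union]
      rfl
    rw [this]
    exact hgen

theorem isMinimal_two {f g : BoundedLatticeHom A B}
    (h : ∀ z : B, z ≠ ⊥ → ∃ a b, f a ⊓ g b ≠ ⊥ ∧ f a ⊓ g b ≤ z) :
    IsMinimal (A := fun _ : Bool => A) (two f g) := by
  intro z hz
  obtain ⟨a, b, hab, habz⟩ := h z hz
  have h1 : Finset.univ.inf (fun t : Bool => two f g t (if t then b else a)) = f a ⊓ g b := by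
    apply le_antisymm
    · exact le_inf (Finset.inf_le (Finset.mem_univ false)) (Finset.inf_le (Finset.mem_univ true))
    · refine Finset.le_inf fun t _ => ?_
      cases t
      · exact inf_le_left
      · exact inf_le_right
  exact ⟨Finset.univ, fun t => if t then b else a, by rwa [h1], by rwa [h1]⟩

theorem indep_of {m : Cardinal.{0}} {j : ∀ _ : Bool, BoundedLatticeHom A B}
    (hj : IsProduct m (A := fun _ : Bool => A) j) {a b : A} (ha : a ≠ ⊥) (hb : b ≠ ⊥) :
    j false a ⊓ j true b ≠ ⊥ := by
  intro h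
  apply hj.indep Finset.univ (fun t => if t then b else a) (by rintro (_ | _) _ <;> assumption)
  rw [eq_bot_iff, ← h]
  exact le_inf (Finset.inf_le (Finset.mem_univ false)) (Finset.inf_le (Finset.mem_univ true))

theorem dense_of {j : ∀ _ : Bool, BoundedLatticeHom A B}
    (hj : IsMinimal (A := fun _ : Bool => A) j) {z : B} (hz : z ≠ ⊥) :
    ∃ a b, j false a ⊓ j true b ≠ ⊥ ∧ j false a ⊓ j true b ≤ z := by
  classical
  obtain ⟨F, a, h1, h2⟩ := hj z hz
  have h3 : j false (if false ∈ F then a false else ⊤) ⊓ j true (if true ∈ F then a true else ⊤) =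
      F.inf (fun t => j t (a t)) := by
    apply le_antisymm
    · refine Finset.le_inf fun t ht => ?_
      cases t
      · rw [if_pos ht]; exact inf_le_left
      · rw [if_pos ht]; exact inf_le_right
    · refine le_inf ?_ ?_
      · split_ifs with h
        · exact Finset.inf_le (f := fun t => j t (a t)) h
        · rw [map_top]; exact le_top
      · split_ifs with h
        · exact Finset.inf_le (f := fun t => j t (a t)) h
        · rw [map_top]; exact le_top
  exact ⟨_, _, by rwa [h3], by rwa [h3]⟩

end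

/-- The main result. -/
theorem result : ∀ m : Cardinal.{0}, ℵ₀ ≤ m →
    ∃ (A : Bool → Type) (_ : ∀ t, BooleanAlgebra (A t)), (∀ t, Nontrivial (A t)) ∧
      (∃ (M : Type) (_ : BooleanAlgebra M) (j : ∀ t, BoundedLatticeHom (A t) M),
        IsProduct m j ∧ IsMinimal j) ∧
      ∃ (B : Type) (_ : BooleanAlgebra B) (i : ∀ t, BoundedLatticeHom (A t) B), IsProduct m i ∧
        ∀ (M : Type) (_ : BooleanAlgebra M) (j : ∀ t, BoundedLatticeHom (A t) M),
          IsProduct m j → IsMinimal j →
            ¬ ∃ h : BoundedLatticeHom B M, IsMHom m h ∧ ∀ t a, h (i t a) = j t a := by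
  intro m hm
  refine ⟨fun _ => RO X, fun _ => inferInstance, fun _ => ⟨⟨⊥, ⊤, nontrivial_RO⟩⟩,
    ⟨RO (X × X), inferInstance, two j0 j1, isProduct_two (isMAlg_M m) j0_inj j1_inj (j0_isMHom m)
      (j1_isMHom m) (fun a b => indep_M) nontrivial_RO.symm (generates_M hm),
      isMinimal_two fun z => dense_M⟩,
    Finset ℕ → RO X, inferInstance, two i0 i1, isProduct_two (isMAlg_B m) i0_inj i1_inj
      (i0_isMHom m) (i1_isMHom m) (fun a b => indep_B) nontrivial_RO.symm (generates_B hm), ?_⟩
  rintro M _ j hj hjm ⟨h, hh, hij⟩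
  exact core hm (j0 := j false) (j1 := j true) (fun a b => indep_of hj) (fun z => dense_of hjm) h hh
    (fun a => hij false a) (fun a => hij true a)

end Pool.Agent.Results.MP_27bb78_al.NotSmallest
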